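import Pool.Agent.Y546.WQ.Stm2

/-!
# Project WG, statement POLB: `f` is palindromic
-/

set_option autoImplicit false

namespace Pool.Agent.Y587.WQ

open Polynomial Pool.Agent.Y546.WQ

section poly

variable {F : Type} [Field F]

lemma eval_reflect_one {f : F[X]} {m : ℕ} (hf : f.natDegree ≤ m) :
    (f.reflect m).eval 1 = f.eval 1 := by
  have h := @eval₂_reflect_mul_pow F _ F _ (RingHom.id F) (1 : F) invertibleOne m f hf
  rw [one_pow, mul_one, @invOf_one F _ invertibleOne] at h
  exact h

lemma X_mul_derivative (n : ℕ) (g : F[X]) :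
    X * derivative (X ^ n * g) = X ^ n * (C (n : F) * g + X * derivative g) := by
  rcases n with _ | n
  · rw [pow_zero, one_mul, one_mul, Nat.cast_zero, C_0, zero_mul, zero_add]
  · rw [derivative_mul, derivative_X_pow, Nat.add_sub_cancel]
    push_cast
    ring

lemma natDegree_X_mul_derivative {g : F[X]} {m : ℕ} (hg : g.natDegree ≤ m) :
    (X * derivative g).natDegree ≤ m := by
  rw [natDegree_le_iff_coeff_eq_zero]
  intro n hn
  rcases n with _ | n
  · exact absurd hn (Nat.not_lt_zero _)
  · rw [coeff_X_mul, coeff_derivative, coeff_eq_zero_of_natDegree_lt (by omega), zero_mul]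

lemma cop (a b : ℕ) : IsCoprime ((X - 1 : F[X]) ^ a) (X ^ b) := by
  refine IsCoprime.pow ⟨-1, 1, ?_⟩
  ring

lemma natDegree_X_sub_one_pow (n : ℕ) : ((X - 1 : F[X]) ^ n).natDegree = n := by
  rw [natDegree_pow, ← C_1, natDegree_X_sub_C, mul_one]

lemma sq_dvd {G : F[X]} (h0 : G.eval 1 = 0) (h1 : (derivative G).eval 1 = 0) :
    (X - 1 : F[X]) ^ 2 ∣ G := by
  by_cases hG : G = 0
  · rw [hG]
    exact dvd_zero _
  · have h2 : 1 < G.rootMultiplicity 1 := (one_lt_rootMultiplicity_iff_isRoot hG).2 ⟨h0, h1⟩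
    rw [← C_1]
    exact (le_rootMultiplicity_iff hG).1 h2

/-- the argument with the logarithmic derivative -/
lemma wronskian {f : F[X]} {m s : ℕ} (hf : f.natDegree ≤ m) (h0 : f.coeff 0 ≠ 0)
    (hm : f.coeff m ≠ 0)
    (h : (X - 1 : F[X]) ^ (2 * m + 2) ∣ X ^ m * f - X ^ s * f.reflect m) : (m : F) = s := by
  have hfr : (f.reflect m).natDegree ≤ m := by
    refine natDegree_reflect_le.trans ?_
    exact max_le le_rfl hf
  have hd : (X - 1 : F[X]) ^ (2 * m + 1) ∣ derivative (X ^ m * f - X ^ s * f.reflect m) := by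
    have := pow_sub_one_dvd_derivative_of_pow_dvd h
    exact this
  have hd' : (X - 1 : F[X]) ^ (2 * m + 1) ∣ X ^ m * f - X ^ s * f.reflect m :=
    (pow_dvd_pow _ (by omega)).trans h
  have hE : (X - 1 : F[X]) ^ (2 * m + 1) ∣
      X * derivative (X ^ m * f - X ^ s * f.reflect m) * (X ^ s * f.reflect m) -
      (X ^ m * f - X ^ s * f.reflect m) * (X * derivative (X ^ s * f.reflect m)) :=
    dvd_sub ((hd.mul_left X).mul_right _) (hd'.mul_right _)
  have hQ : X * derivative (X ^ m * f - X ^ s * f.reflect m) * (X ^ s * f.reflect m) -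
      (X ^ m * f - X ^ s * f.reflect m) * (X * derivative (X ^ s * f.reflect m)) =
      X ^ (m + s) * (C ((m : F) - s) * (f * f.reflect m) +
        f.reflect m * (X * derivative f) - f * (X * derivative (f.reflect m))) := by
    rw [derivative_sub, mul_sub, X_mul_derivative, X_mul_derivative, C_sub, pow_add]
    ring
  rw [hQ] at hE
  have hdvd := (cop (F := F) (2 * m + 1) (m + s)).dvd_of_dvd_mul_left hE
  have hdeg : (C ((m : F) - s) * (f * f.reflect m) +
        f.reflect m * (X * derivative f) - f * (X * derivative (f.reflect m))).natDegree <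
      ((X - 1 : F[X]) ^ (2 * m + 1)).natDegree := by
    rw [natDegree_X_sub_one_pow]
    have h1 : (C ((m : F) - s) * (f * f.reflect m)).natDegree ≤ m + m := by
      refine (natDegree_C_mul_le _ _).trans (natDegree_mul_le.trans (Nat.add_le_add hf hfr))
    have h2 : (f.reflect m * (X * derivative f)).natDegree ≤ m + m :=
      natDegree_mul_le.trans (Nat.add_le_add hfr (natDegree_X_mul_derivative hf))
    have h3 : (f * (X * derivative (f.reflect m))).natDegree ≤ m + m :=
      natDegree_mul_le.trans (Nat.add_le_add hf (natDegree_X_mul_derivative hfr))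
    have h4 := natDegree_sub_le (C ((m : F) - s) * (f * f.reflect m) +
        f.reflect m * (X * derivative f)) (f * (X * derivative (f.reflect m)))
    have h5 := natDegree_add_le (C ((m : F) - s) * (f * f.reflect m))
      (f.reflect m * (X * derivative f))
    have h6 := max_le h1 h2
    have h7 := max_le (h5.trans h6) h3
    omega
  have hz := eq_zero_of_dvd_of_natDegree_lt hdvd hdeg
  have hc := congrArg (fun q => q.coeff 0) hz
  simp only [coeff_sub, coeff_add, mul_coeff_zero, coeff_X_zero, zero_mul, mul_zero,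
    add_zero, sub_zero, coeff_zero, coeff_C_zero] at hc
  have hr0 : (f.reflect m).coeff 0 = f.coeff m := by
    rw [coeff_reflect, revAt_le (Nat.zero_le m), Nat.sub_zero]
  rw [hr0] at hc
  have h8 := (mul_eq_zero.1 hc).resolve_right (mul_ne_zero h0 hm)
  exact sub_eq_zero.1 h8

end poly

theorem mainPOLB : S_CORE → S_POLB := by
  intro hcore p hp m i f r hpm hf h0 hm h1 hr hdiv hsj'
  have hp2 : p ≠ 2 := by omega
  have hfr : (f.reflect m).natDegree ≤ m := by
    refine natDegree_reflect_le.trans ?_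
    exact max_le le_rfl hf
  have hr1 : (f.reflect m).eval 1 = f.eval 1 := eval_reflect_one hf
  obtain ⟨s, hsp, hs⟩ : ∃ s : ℕ, s < p ∧ (s : ZMod p) * f.eval 1 =
      m * f.eval 1 + (derivative f).eval 1 - (derivative (f.reflect m)).eval 1 := by
    refine ⟨((m * f.eval 1 + (derivative f).eval 1 -
      (derivative (f.reflect m)).eval 1) / f.eval 1).val, ZMod.val_lt _, ?_⟩
    rw [ZMod.natCast_zmod_val, div_mul_cancel₀ _ h1]
  obtain ⟨G, hG⟩ : ∃ G : (ZMod p)[X], G = X ^ m * f - X ^ s * f.reflect m := ⟨_, rfl⟩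
  have hG0 : G.eval 1 = 0 := by
    rw [hG]
    simp only [eval_sub, eval_mul, eval_pow, eval_X, one_pow, one_mul]
    rw [hr1, sub_self]
  have hG1 : (derivative G).eval 1 = 0 := by
    have e := congrArg (fun q => q.eval (1 : ZMod p)) (X_mul_derivative m f)
    have e' := congrArg (fun q => q.eval (1 : ZMod p)) (X_mul_derivative s (f.reflect m))
    simp only [eval_mul, eval_X, one_mul, eval_pow, one_pow, eval_add, eval_C] at e e'
    rw [hG, derivative_sub, eval_sub, e, e', hr1, hs]
    ring
  have hG2 := sq_dvd hG0 hG1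
  have key : (X - 1 : (ZMod p)[X]) ^ (2 * m + 2) ∣ G := by
    by_cases hGz : G = 0
    · rw [hGz]
      exact dvd_zero _
    · obtain ⟨W, hW, hWn⟩ := exists_eq_pow_rootMultiplicity_mul_and_not_dvd G hGz 1
      obtain ⟨l, hl⟩ : ∃ l, l = G.rootMultiplicity 1 := ⟨_, rfl⟩
      rw [← hl, C_1] at hW
      rw [C_1] at hWn
      have hl2 : 2 ≤ l := by
        rw [hl, le_rootMultiplicity_iff hGz, C_1]
        exact hG2
      have hW1 : W.eval 1 ≠ 0 := by
        intro h
        apply hWn
        have := dvd_iff_isRoot.2 h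
        rwa [C_1] at this
      by_cases hlm : l ≤ 2 * m + 1
      · obtain ⟨hodd, hzero⟩ := hcore p hp2 m s i l f W r hf h1 hr hdiv (by rw [← hG]; exact hW)
          hW1 (by omega) (by omega) (Or.inl hl2)
        have h3 : 3 ≤ l := by
          obtain ⟨t, ht⟩ := hodd
          omega
        exact absurd hzero (hsj' l hodd h3 hlm)
      · rw [hW]
        exact (pow_dvd_pow _ (by omega)).mul_right _
  rw [hG] at key
  have hms := wronskian hf h0 hm key
  have hsm : s = m := by
    have h2 := (ZMod.natCast_eq_natCast_iff' m s p).1 hms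
    rw [Nat.mod_eq_of_lt (by omega), Nat.mod_eq_of_lt hsp] at h2
    exact h2.symm
  rw [hsm, ← mul_sub] at key
  have h3 := (cop (F := ZMod p) (2 * m + 2) m).dvd_of_dvd_mul_left key
  have h4 : (f - f.reflect m).natDegree < ((X - 1 : (ZMod p)[X]) ^ (2 * m + 2)).natDegree := by
    rw [natDegree_X_sub_one_pow]
    have h5 := natDegree_sub_le f (f.reflect m)
    have h6 := max_le hf hfr
    omega
  have h5 := eq_zero_of_dvd_of_natDegree_lt h3 h4
  exact (sub_eq_zero.1 h5).symm

end Pool.Agent.Y587.WQ
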